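import Pool.Agent.X319.UB.LowAna

/-!
# MP_15e61c_co: `P(c)` holds for every `c < 3/4`, so `c' ≥ 3/4`

Cut `[1, n]` in blocks of length about `n ^ c`. For blocks `j < k < l`, with
`B = {a_i - i}`, `D = {a_i + i}` on a block, the sets `B_j + D_k`, `B_j + D_l`, `B_k + D_l` are parts of
`S(a)`, and two triangle inequalities of Ruzsa give
`n ^ c |B_j| |D_l| ≤ |B_j + D_k| |B_j + D_l| |B_k + D_l|`. As `|B_j| |D_j| ≥ n ^ c`, there are, for each
distance, blocks with `|B_j| |D_l| ≥ n ^ c / 2`, so that at each scale `S(a)` has about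
`n ^ (2 c / 3)` elements.
-/

set_option autoImplicit false

namespace Pool.Agent.Results.MP_15e61c_co.LowerThreeQuarters

open Pool.Agent.X319.UB

theorem result : (∀ c : ℝ, c < 3 / 4 → P c) ∧ 3 / 4 ≤ cPrime := by
  have h1 : ∀ c : ℝ, c < 3 / 4 → P c := fun c hc =>
    P_mono (le_max_left c (1 / 2)) (P_low (le_max_right _ _) (max_lt hc (by norm_num)))
  refine ⟨h1, ?_⟩
  by_contra hcon
  have hcon' : cPrime < 3 / 4 := not_le.1 hcon
  set b : ℝ := max (1 / 2) ((cPrime + 3 / 4) / 2) with hb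
  have hb1 : b < 3 / 4 := max_lt (by norm_num) (by linarith)
  have hb2 : (cPrime + 3 / 4) / 2 ≤ b := le_max_right _ _
  have hb3 : 1 / 2 ≤ b := le_max_left _ _
  have h2 : b ≤ cPrime := by
    refine le_csSup ⟨1, fun x hx => hx.2.1⟩ ⟨by linarith, by linarith, h1 b hb1⟩
  linarith

end Pool.Agent.Results.MP_15e61c_co.LowerThreeQuarters
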