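import Pool.Agent.X319.UB.Ana

/-!
# MP_15e61c_co: `c' ≤ 1 / (2 - log 36 / log 57) < 9/10`

Let `A = {0, 1, 3, 13, 32, 36, 43, 52}`, a perfect difference set modulo 57 with 36 sums. Let `A_d` be
the set of the numbers with `d` digits in `A` to the base 57. Then `|A_d + A_d| ≤ 36 ^ d`, and every
integer is congruent to an element of `A_d - A_d` modulo `M = 57 ^ d`. For `i` in `[0, M)` let `y_i`, `x_i` in
`A_d` with `x_i - y_i` congruent to `2 i`, and let `a_i = y_i + i`, continued with period `M`. Then all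
numbers `a_i + a_j + (j - i)` are of the form `y_i + x_j + M u` with few `u`.
-/

set_option autoImplicit false

namespace Pool.Agent.Results.MP_15e61c_co.UpperNineTenths

open Pool.Agent.X319.UB
open scoped Pointwise

/-- a perfect difference set modulo 57 -/
def A : Finset ℕ := {0, 1, 3, 13, 32, 36, 43, 52}

lemma A_lt : ∀ x ∈ A, x < 57 := by decide

lemma A_card : (A + A).card = 36 := by decide +kernel

lemma A_cov0 : ∀ m : Fin 57, ∃ x ∈ A, ∃ y ∈ A, (x + (57 - y)) % 57 = m.1 := by decide +kernel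

lemma A_cov (r : ℤ) : ∃ x ∈ A, ∃ y ∈ A, ((57 : ℕ) : ℤ) ∣ (x : ℤ) - y - r := by
  have h0 : 0 ≤ r % 57 := Int.emod_nonneg _ (by norm_num)
  have h1 : r % 57 < 57 := Int.emod_lt_of_pos _ (by norm_num)
  obtain ⟨x, hx, y, hy, h⟩ := A_cov0 ⟨(r % 57).toNat, by omega⟩
  have hy' := A_lt y hy
  refine ⟨x, hx, y, hy, ?_⟩
  simp only at h
  omega

theorem result : (∀ c : ℝ, 1 / (2 - Real.log 36 / Real.log 57) < c → c ≤ 1 → ¬ P c) ∧
    cPrime ≤ 1 / (2 - Real.log 36 / Real.log 57) ∧
    1 / (2 - Real.log 36 / Real.log 57) < 9 / 10 := by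
  have hlog57 : 0 < Real.log 57 := Real.log_pos (by norm_num)
  have hθ : Real.log 36 / Real.log 57 < 8 / 9 := by
    rw [div_lt_iff₀ hlog57]
    have h1 : Real.log ((36 : ℝ) ^ 9) < Real.log ((57 : ℝ) ^ 8) :=
      Real.log_lt_log (by positivity) (by norm_num)
    rw [Real.log_pow, Real.log_pow] at h1
    push_cast at h1
    linarith
  set θ : ℝ := Real.log 36 / Real.log 57 with hθdef
  have hpos : 0 < 2 - θ := by linarith
  have hmain : ∀ c : ℝ, 1 / (2 - θ) < c → c ≤ 1 → ¬ P c := by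
    intro c hc hc1
    have hc0 : 0 < c := lt_trans (by positivity) hc
    refine not_P (q := 57) (A := A) (by norm_num) A_lt A_cov A_card (by norm_num) (by norm_num)
      hc0 hc1 ?_
    have h := (one_div_lt hpos hc0).1 hc
    simpa [hθdef] using h
  refine ⟨hmain, ?_, ?_⟩
  · refine Real.sSup_le ?_ (by positivity)
    rintro x ⟨hx0, hx1, hx⟩
    by_contra hcon
    exact hmain x (not_le.1 hcon) hx1 hx
  · rw [div_lt_div_iff₀ hpos (by norm_num)]
    linarith

end Pool.Agent.Results.MP_15e61c_co.UpperNineTenths
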